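import Mathlib
import Pool.Agent.H80.RS.Scale

/-!
# MP_308c18_ag, Q1: the bound fails on rational surfaces, for rational curves

Let `Λ` be a lattice in `ℂ`, with Weierstrass function `℘`, let `e₁, e₂, e₃` be the values of `℘` at the
half periods, and let `u`, `v` be points of finite order in `ℂ / Λ` which are not of order `1` or `2`.
Let `X` be the blow-up of the projective plane in eleven points: the nine base points (five of them
infinitely near) of the pencil of the cubic curves `λ y ^ 2 = (x - e₁) (x - e₂) (x - e₃)`, whose blow-up is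
a rational elliptic surface, and the points `(℘ u, b)` with any `b ≠ 0`, and `(℘ v, 0)`.

On this rational surface `X` the canonical degrees `K_X · C` of the irreducible rational curves `C` are
not bounded, and arbitrarily large values are taken by curves `C` for which `K_X · C` is at least a
constant times the square root of the degree of the image of `C` in the plane. In particular for all
constants `A`, `B` there is a curve of geometric genus `g = 0` on `X` with `K_X · C > A (g - 1) + B`.

`RationalCurve`, `degree` and `canonicalDegree` are defined in `Pool/Agent/H80/RS/Defs.lean`.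
-/

open Pool.Agent.H80.RS

namespace Pool.Agent.Results.MP_308c18_ag.RationalSurface

/-- Part 1: for every lattice, for all `u`, `v` of finite order greater than two modulo the lattice, and
all `b ≠ 0`, the canonical degrees of the rational curves on the blow-up of the plane in the eleven
points given by `e = (e₁, e₂, e₃)`, `(℘ u, b)` and `(℘ v, 0)` are unbounded, even for curves with
`K · C ≥ (κ deg C) ^ (1/2)`. Here the `eᵢ` are pairwise distinct, `b ≠ 0` and `℘ v ≠ eᵢ`, so the points
are distinct; the `eᵢ` are the roots of the cubic polynomial whose value at `℘ z` is `(℘' z / 2) ^ 2`;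
and there are such `u`, `v`.

Part 2: the negation of Q1 for a rational surface. -/
theorem result :
    (∀ L : PeriodPair,
      (Function.Injective (halfValues L) ∧
        (∀ z ∉ L.lattice, (L.derivWeierstrassP z / 2) ^ 2
          = ∏ i : Fin 3, (L.weierstrassP z - halfValues L i)) ∧
        ∃ u : ℂ, 3 * u ∈ L.lattice ∧ 2 * u ∉ L.lattice) ∧
      ∀ (u v : ℂ) (n : ℕ), n ≠ 0 → (n : ℂ) * u ∈ L.lattice → 2 * u ∉ L.lattice →
        (n : ℂ) * v ∈ L.lattice → 2 * v ∉ L.lattice → ∀ b : ℂ, b ≠ 0 →
        (∀ i, L.weierstrassP v ≠ halfValues L i) ∧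
        ∃ κ : ℝ, 0 < κ ∧ ∀ A B : ℝ, ∃ C : RationalCurve,
          A * (0 - 1) + B < C.canonicalDegree (halfValues L) (L.weierstrassP u) b
            (L.weierstrassP v) ∧
          κ * C.degree ≤ (C.canonicalDegree (halfValues L) (L.weierstrassP u) b
            (L.weierstrassP v) : ℝ) ^ 2) ∧
    ∃ (e : Fin 3 → ℂ) (a b c : ℂ), Function.Injective e ∧ b ≠ 0 ∧ (∀ i, c ≠ e i) ∧
      ∀ A B : ℝ, ∃ C : RationalCurve, A * (0 - 1) + B < C.canonicalDegree e a b c := by
  refine ⟨general, ?_⟩
  have hind : LinearIndependent ℝ ![(1 : ℂ), Complex.I] := by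
    have h := Complex.basisOneI.linearIndependent
    rwa [Complex.coe_basisOneI] at h
  let L : PeriodPair := ⟨1, Complex.I, hind⟩
  obtain ⟨⟨h1, -, u, hu, hu2⟩, h2⟩ := general L
  obtain ⟨h3, κ, -, h4⟩ := h2 u u 3 (by norm_num) (by exact_mod_cast hu) hu2 (by exact_mod_cast hu)
    hu2 1 one_ne_zero
  refine ⟨halfValues L, L.weierstrassP u, 1, L.weierstrassP u, h1, one_ne_zero, h3, ?_⟩
  intro A B
  obtain ⟨C, hC, -⟩ := h4 A B
  exact ⟨C, hC⟩

end Pool.Agent.Results.MP_308c18_ag.RationalSurface
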